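import Pool.Agent.H.MP_24a6f7_nt.D

namespace Pool.Agent.H.MP_d695ac_nt
open Pool.Agent.H.MP_24a6f7_nt Finset

lemma gap (p n d1 d2 u v E : ℤ) (hp : 2 ≤ p) (h1 : 0 < d1) (h12 : d1 ≤ d2) (hE : 0 < E)
    (hu : n = d1 * u) (hv : n = d2 * v) (hn : 0 < n)
    (H : (p - 1) * (d1 + d2) = 2 * n - E) : n ≤ 8 * p ^ 3 * E := by
  by_contra hc
  push Not at hc
  have hv0 : 0 < v := by by_contra h; push Not at h; nlinarith
  have hu0 : 0 < u := by by_contra h; push Not at h; nlinarith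
  have hp3 : p ≤ p ^ 3 := le_self_pow₀ (by omega) (by norm_num)
  have hpE : p * E ≤ p ^ 3 * E := mul_le_mul_of_nonneg_right hp3 hE.le
  have hEE : E ≤ p * E := by nlinarith
  have a0 : (p - 1) * d1 ≤ (p - 1) * d2 := mul_le_mul_of_nonneg_left h12 (by omega)
  have a1 : d2 * v < d2 * (2 * p) := by nlinarith
  have a2 : v < 2 * p := lt_of_mul_lt_mul_left a1 (by omega)
  have a3 : n * (2 * v - p + 1) = (p - 1) * d1 * v + E * v := by
    linear_combination -v * H - (p - 1) * hv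
  have a3' : 0 < (p - 1) * d1 * v := mul_pos (mul_pos (by omega) h1) hv0
  have a3'' : 0 < E * v := mul_pos hE hv0
  have a4 : 1 ≤ 2 * v - p + 1 := by by_contra h; push Not at h; nlinarith
  have a5 : n ≤ (p - 1) * d1 * v + E * v := by nlinarith
  have a6 : E * v ≤ E * (2 * p) := mul_le_mul_of_nonneg_left a2.le hE.le
  have a7 : (p - 1) * d1 * v ≤ p * d1 * (2 * p) :=
    mul_le_mul (by nlinarith) a2.le hv0.le (by positivity)
  have a8 : d1 * u < d1 * (4 * p ^ 2) := by nlinarith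
  have a9 : u < 4 * p ^ 2 := lt_of_mul_lt_mul_left a8 h1.le
  have b1 : n ∣ E * (u * v) := ⟨2 * u * v - (p - 1) * (u + v), by
    linear_combination (u * v) * H + (p - 1) * v * hu + (p - 1) * u * hv⟩
  have b2 := Int.le_of_dvd (by positivity) b1
  have b3 : u * v ≤ 4 * p ^ 2 * (2 * p) := mul_le_mul a9.le a2.le hv0.le (by positivity)
  have b4 := mul_le_mul_of_nonneg_left b3 hE.le
  nlinarith

lemma mbound (p K X Y S Q pb pe : ℤ) (hp : 2 ≤ p) (hK : 1 ≤ K) (hX : 0 < X) (hXK : X ≤ K)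
    (hY : 0 < Y) (hYK : Y ≤ K) (hQ : 0 < Q) (hpb : 0 < pb) (hpe : 0 < pe) (h1 : pb ∣ pe)
    (h2 : pe ∣ Q) (hc : IsCoprime pb S) (hrel : (p - 1) * S = Q - 1)
    (E : (2 * K - 1) * S = Q + X * pb + Y * pe) :
    Q ≤ 2 * K + p * (K * (2 * K) + K * (2 * K + p * (K * (2 * K)))) := by
  obtain ⟨s, hs⟩ := h1
  obtain ⟨t, ht⟩ := h2
  have a1 : pb ∣ 2 * K - 1 := hc.dvd_of_dvd_mul_right ⟨s * t + X + Y * s, by
    rw [E, ht, hs]; ring⟩
  have a2 := Int.le_of_dvd (by omega) a1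
  have e : Q * (2 * K - p) = 2 * K - 1 + (p - 1) * (X * pb + Y * pe) := by
    linear_combination (p - 1) * E - (2 * K - 1) * hrel
  have a3 : pe ∣ 2 * K - 1 + (p - 1) * (X * pb) := ⟨t * (2 * K - p) - (p - 1) * Y, by
    rw [ht] at e; linear_combination -e⟩
  have x0 : 0 < X * pb := by positivity
  have y0 : 0 < Y * pe := by positivity
  have a4 := Int.le_of_dvd (by nlinarith) a3
  have a5 : X * pb ≤ K * (2 * K) := mul_le_mul hXK (by omega) hpb.le (by omega)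
  have a6 : (p - 1) * (X * pb) ≤ p * (K * (2 * K)) := mul_le_mul (by omega) a5 x0.le (by omega)
  have a7 : Y * pe ≤ K * (2 * K + p * (K * (2 * K))) := mul_le_mul hYK (by omega) hpe.le (by omega)
  have a8 : (p - 1) * (X * pb + Y * pe) ≤
      p * (K * (2 * K) + K * (2 * K + p * (K * (2 * K)))) :=
    mul_le_mul (by omega) (by omega) (by omega) (by omega)
  have a9 : 0 < (p - 1) * (X * pb + Y * pe) := mul_pos (by omega) (by omega)
  have a10 : 1 ≤ 2 * K - p := by by_contra h; push Not at h; nlinarith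
  nlinarith

lemma fin_p (p : ℕ) (hp : p.Prime) (ho : Odd p) :
    {n | TwoNear n ∧ ∃ k m : ℕ, 1 ≤ m ∧ n = 2 ^ k * p ^ m}.Finite := by
  have hp2 : (2 : ℤ) ≤ p := by exact_mod_cast hp.two_le
  set B : ℤ := 16 * p ^ 4 with hB
  have f1 := (Set.finite_le_nat (32 * p ^ 3)).biUnion
    (t := fun m => {n | TwoNear n ∧ ∃ k : ℕ, n = 2 ^ k * p ^ (m + 1)})
    fun m _ => fin_fixed p (m + 1) (by omega) hp ho
  refine (f1.union (Set.finite_le_nat
    (B * (2 * B + p * (B * (2 * B) + B * (2 * B + p * (B * (2 * B)))))).toNat)).subset ?_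
  rintro n ⟨h, k, m, hm, rfl⟩
  obtain ⟨m, rfl⟩ : ∃ j, m = j + 1 := ⟨m - 1, by omega⟩
  by_cases hm2 : m ≤ 32 * p ^ 3
  · exact Or.inl (Set.mem_biUnion (x := m) hm2 ⟨h, k, rfl⟩)
  right
  obtain ⟨a, b, c, e, ha, hc, hb, he, -, E⟩ := eqn k p (m + 1) hp ho h
  have hrel := mul_geom_sum (p : ℤ) (m + 1)
  have hcop : IsCoprime (p : ℤ) (∑ i ∈ range (m + 1), (p : ℤ) ^ i) :=
    ⟨-∑ i ∈ range m, (p : ℤ) ^ i, 1, by rw [geom_sum_succ]; ring⟩
  have hQ : 32 * (p : ℤ) ^ 3 < (p : ℤ) ^ (m + 1) := by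
    have : m + 1 < p ^ (m + 1) := Nat.lt_pow_self hp.one_lt
    exact_mod_cast (show 32 * p ^ 3 < p ^ (m + 1) by omega)
  have hK1 : (1 : ℤ) ≤ 2 ^ k := one_le_pow₀ (by norm_num)
  have hd : ∀ a b : ℕ, a ≤ k → b ≤ m + 1 → (2 : ℤ) ^ k * (p : ℤ) ^ (m + 1) =
      (2 ^ a * (p : ℤ) ^ b) * (2 ^ (k - a) * (p : ℤ) ^ (m + 1 - b)) := fun a b h1 h2 => by
    rw [mul_mul_mul_comm, ← pow_add, ← pow_add, Nat.add_sub_cancel' h1, Nat.add_sub_cancel' h2]
  have hQ0 : (0 : ℤ) < (p : ℤ) ^ (m + 1) := by positivity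
  have hE : (0 : ℤ) < p * (p : ℤ) ^ (m + 1) + 2 * 2 ^ k - 1 := by
    have : (0 : ℤ) < p * (p : ℤ) ^ (m + 1) := by positivity
    omega
  have hg : (2 : ℤ) ^ k * (p : ℤ) ^ (m + 1) ≤
      8 * (p : ℤ) ^ 3 * (p * (p : ℤ) ^ (m + 1) + 2 * 2 ^ k - 1) := by
    rcases le_total (2 ^ a * (p : ℤ) ^ b) (2 ^ c * (p : ℤ) ^ e) with h | h
    · exact gap p _ _ _ _ _ _ hp2 (by positivity) h hE (hd a b ha hb) (hd c e hc he)
        (by positivity) (by linear_combination (2 * 2 ^ k - 1) * hrel - (p - 1) * E)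
    · exact gap p _ _ _ _ _ _ hp2 (by positivity) h hE (hd c e hc he) (hd a b ha hb)
        (by positivity) (by linear_combination (2 * 2 ^ k - 1) * hrel - (p - 1) * E)
  have hKB : (2 : ℤ) ^ k ≤ B := by
    by_contra hcon
    push Not at hcon
    have t1 := mul_lt_mul_of_pos_right hcon hQ0
    have t2 := mul_lt_mul_of_pos_left hQ (show (0 : ℤ) < 2 ^ k by omega)
    have t3 : (0 : ℤ) < (p : ℤ) ^ 3 := by positivity
    rw [hB] at t1
    nlinarith
  have hX : (2 : ℤ) ^ a ≤ 2 ^ k := pow_le_pow_right₀ (by norm_num) ha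
  have hY : (2 : ℤ) ^ c ≤ 2 ^ k := pow_le_pow_right₀ (by norm_num) hc
  have hQb : (p : ℤ) ^ (m + 1) ≤ 2 * 2 ^ k + p * (2 ^ k * (2 * 2 ^ k) +
      2 ^ k * (2 * 2 ^ k + p * (2 ^ k * (2 * 2 ^ k)))) := by
    rcases le_total b e with h | h
    · exact mbound p _ _ _ _ _ _ _ hp2 hK1 (by positivity) hX (by positivity) hY hQ0
        (by positivity) (by positivity) (pow_dvd_pow _ h) (pow_dvd_pow _ he) hcop.pow_left hrel E
    · exact mbound p _ _ _ _ _ _ _ hp2 hK1 (by positivity) hY (by positivity) hX hQ0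
        (by positivity) (by positivity) (pow_dvd_pow _ h) (pow_dvd_pow _ hb) hcop.pow_left hrel
        (by rw [E]; ring)
  show 2 ^ k * p ^ (m + 1) ≤ _
  rw [Int.le_toNat (by positivity)]
  push_cast
  refine mul_le_mul hKB (hQb.trans ?_) hQ0.le (by positivity)
  gcongr

lemma not_pp (p m : ℕ) (hp : p.Prime) : ¬ TwoNear (p ^ m) := by
  rintro ⟨-, d1, d2, -, -, -, -, -, E⟩
  rw [Nat.sum_divisors_prime_pow hp, sum_range_succ] at E
  have := Nat.geomSum_lt hp.two_le (s := range m) (n := m) (fun k hk => mem_range.1 hk)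
  omega

end Pool.Agent.H.MP_d695ac_nt
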